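import Pool.Agent.L7h27.PR.Var
import Pool.Agent.L7h27.AP.LowG

/-! Almost prime values of a quadratic polynomial in almost all short progressions with an arbitrary
difference. -/

set_option autoImplicit false

namespace Pool.Agent.L7h27.PR

open Finset Polynomial Filter
open Pool.Agent.W23.DC
open Pool.Agent.Y882
open Pool.Agent.Y882.PX
open Pool.Agent.Y882.SI
open Pool.Agent.Y882.KW
open Pool.Agent.L7h27.AP
open Pool.Agent.Y882.MG (tail_sq card_lt)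
open Pool.Agent.R498.MT (QG QG_eval QG_ne_zero)
open Pool.Agent.L7h2.QS (ro_QG_le ro_QG_two mer_QG' lo_QG)

open Classical in
/-- **The weighted sieve in short progressions.** -/
theorem engP (K : ℕ) (β τ ζ υ aw bw ε : ℝ) (hβ : 0 < β) (hζ : 0 < ζ) (h2 : 2 * ζ < τ)
    (h4 : τ ≤ 4 * ζ) (hτ : τ < 1) (hζυ : ζ ≤ υ) (hυτ : υ < τ) (ha : 0 ≤ aw) (hb : 0 ≤ bw)
    (hab : bw * υ ≤ aw)
    (hJ0 : ∫ x in ζ..υ, (aw - bw * x) / (τ - x) / x < Real.log (τ / ζ - 1) / τ) (hε : 0 < ε) :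
    ∃ δ ε₁ η : ℝ, 0 < δ ∧ 0 < ε₁ ∧ ε₁ ≤ ζ ∧ ε₁ ≤ β ∧ 0 < η ∧ ∃ Y0 : ℕ, ∀ Y : ℕ, Y0 ≤ Y →
      ∀ (G : ℤ[X]) (U H Q Z : ℕ), (∀ p : ℕ, p.Prime → ro G 0 p ≤ K) → 0 < H → 0 < Q →
        (Y : ℝ) ^ β ≤ Z →
        Mer (pr Y ε₁ υ) (tt Y) (fun p => (rq G Q p : ℝ) / p) ε₁ υ η →
        (((Icc 1 U).filter (fun u => Adm G Q (u % Q) ∧
          ((pW G Y ζ υ aw bw u (Q * H) Q (u % Q)).card : ℝ) < δ * H * loq G Q Z)).card : ℝ) ≤
          (U + (Y : ℝ) ^ (2 * τ)) / H * (Y : ℝ) ^ ε := by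
  obtain ⟨s, hs0, hs1, hs2⟩ : ∃ s : ℝ, 0 < s ∧ s ≤ ε / 8 ∧ s ≤ 1 - τ :=
    ⟨min (ε / 8) (1 - τ), lt_min (by linarith) (by linarith), min_le_left _ _, min_le_right _ _⟩
  set τ' : ℝ := τ + s with hτ'
  have hττ' : τ < τ' := by linarith
  obtain ⟨δ, ε₁, η, hδ, hε₁, hε₁ζ, hε₁β, hη, Y1, HC⟩ :=
    core4 K τ ζ υ aw bw τ' β (ε / 32) hζ h2 h4 hτ.le hζυ hυτ ha hb hab hJ0 hττ' hβ (by linarith)
  obtain ⟨Y2, HE⟩ := few_prog K τ' ε (by linarith) (by linarith) hε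
  have ev1 : ∀ᶠ Y : ℕ in atTop, 5 * Real.log Y ≤ (Y : ℝ) ^ (ε / 64) := by
    have h1 := (isLittleO_log_rpow_atTop (show 0 < ε / 64 by linarith)).bound
      (show (0 : ℝ) < 1 / 5 by norm_num)
    filter_upwards [tendsto_natCast_atTop_atTop.eventually h1, eventually_ge_atTop 1] with Y hY hY1
    have hY1r : (1 : ℝ) ≤ Y := by exact_mod_cast hY1
    rw [Real.norm_of_nonneg (Real.log_nonneg hY1r), Real.norm_of_nonneg (by positivity)] at hY
    linarith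
  obtain ⟨Y3, hY3⟩ := eventually_atTop.1 (ev1.and (eventually_ge_atTop 3))
  refine ⟨δ, ε₁, η, hδ, hε₁, hε₁ζ, hε₁β, hη, max Y1 (max Y2 Y3), ?_⟩
  intro Y hY G U H Q Z hK hH hQ hZ hmer
  have hYY1 : Y1 ≤ Y := (le_max_left _ _).trans hY
  have hYY2 : Y2 ≤ Y := ((le_max_left _ _).trans (le_max_right _ _)).trans hY
  obtain ⟨e1, e3⟩ := hY3 Y (((le_max_right _ _).trans (le_max_right _ _)).trans hY)
  have hYr : (3 : ℝ) ≤ Y := by exact_mod_cast e3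
  have hY0 : (0 : ℝ) < Y := by linarith
  have hY1r : (1 : ℝ) ≤ Y := by linarith
  have hH0 : (0 : ℝ) < H := by exact_mod_cast hH
  obtain ⟨c, hcL, hcD, hcM⟩ := HC Y hYY1
  have hPZ : ∀ p ∈ PZ Y υ, p.Prime := PZ_prime Y υ
  have hPQp : ∀ p ∈ PQ Y υ Q, p.Prime := fun p hp => hPZ p (mem_filter.1 hp).1
  have hPQd : ∀ p ∈ PQ Y υ Q, ¬ p ∣ Q := fun p hp => (mem_filter.1 hp).2
  have hA := HE Y hYY2 G (PQ Y υ Q) c U H Q hPQp hPQd (fun p hp => hK p (hPQp p hp))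
    (fun T => (hcL T).trans e1) (fun T hT h0 => hcD T (hT.trans (filter_subset _ _)) h0) hH hQ
  have hsub : (Icc 1 U).filter (fun u => Adm G Q (u % Q) ∧
      ((pW G Y ζ υ aw bw u (Q * H) Q (u % Q)).card : ℝ) < δ * H * loq G Q Z) ⊆
      (Icc 1 U).filter (fun u => (H : ℝ) * (Y : ℝ) ^ (-(ε / 16)) <
        |∑ n ∈ SC u (Q * H) Q (u % Q), EW G (PQ Y υ Q) c n|) := by
    intro u hu
    rw [mem_filter] at hu ⊢
    refine ⟨hu.1, ?_⟩
    by_contra hcon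
    push Not at hcon
    obtain ⟨haA, haS⟩ := hu.2
    apply absurd haS (not_lt.2 _)
    have hcard : (SC u (Q * H) Q (u % Q)).card = H := SC_prog_card u H Q hQ
    have key := hcM (SC u (Q * H) Q (u % Q)) (fun j => (G.eval (j : ℤ)).natAbs) (rq G Q) Z
      hZ (by
        intro p hp
        unfold rq
        split_ifs
        · exact Nat.zero_le _
        · exact hK p hp) (by
        intro p hp
        unfold rq
        split_ifs
        · exact Nat.zero_le _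
        · exact ro_le_self G 0 p) hmer (by
        rw [wsumW G (PZ Y υ) hPZ c u (Q * H) Q (u % Q) haA]
        change |∑ n ∈ SC u (Q * H) Q (u % Q), EW G (PQ Y υ Q) c n| ≤ _
        refine hcon.trans ?_
        rw [hcard]
        apply mul_le_mul_of_nonneg_left _ hH0.le
        exact Real.rpow_le_rpow_of_exponent_le hY1r (by linarith))
    rw [hcard] at key
    exact key
  calc (((Icc 1 U).filter (fun u => Adm G Q (u % Q) ∧
      ((pW G Y ζ υ aw bw u (Q * H) Q (u % Q)).card : ℝ) < δ * H * loq G Q Z)).card : ℝ) ≤ _ := by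
        exact_mod_cast card_le_card hsub
    _ ≤ _ := hA
    _ ≤ ((U + (Y : ℝ) ^ (2 * τ)) * (Y : ℝ) ^ (ε / 2)) / H * (Y : ℝ) ^ (ε / 2) := by
        apply mul_le_mul_of_nonneg_right _ (by positivity)
        apply div_le_div_of_nonneg_right _ hH0.le
        have h1 : (Y : ℝ) ^ (2 * τ') ≤ (Y : ℝ) ^ (2 * τ) * (Y : ℝ) ^ (ε / 2) := by
          rw [← Real.rpow_add hY0]
          exact Real.rpow_le_rpow_of_exponent_le hY1r (by linarith)
        have h3 : (1 : ℝ) ≤ (Y : ℝ) ^ (ε / 2) := Real.one_le_rpow hY1r (by linarith)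
        have h4 : (0 : ℝ) ≤ U := Nat.cast_nonneg _
        nlinarith
    _ = (U + (Y : ℝ) ^ (2 * τ)) / H * ((Y : ℝ) ^ (ε / 2) * (Y : ℝ) ^ (ε / 2)) := by ring
    _ = _ := by
        rw [← Real.rpow_add hY0]
        congr 2
        ring

open Classical in
/-- few progressions with many members of a property -/
theorem bad_prog (Pr : ℕ → Prop) (U H Q : ℕ) (hH : 0 < H) (hQ : 0 < Q) (t : ℝ) (ht : 0 < t) :
    (((Icc 1 U).filter (fun u => (H : ℝ) / t <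
      (((SC u (Q * H) Q (u % Q)).filter Pr).card : ℝ))).card : ℝ) ≤
      t * (((SC 0 (U + Q * H) 1 0).filter Pr).card : ℝ) := by
  have hH0 : (0 : ℝ) < H := by exact_mod_cast hH
  set A := (Icc 1 U).filter (fun u => (H : ℝ) / t <
      (((SC u (Q * H) Q (u % Q)).filter Pr).card : ℝ)) with hA
  set W : ℕ := ((SC 0 (U + Q * H) 1 0).filter Pr).card with hW
  have h1 : (A.card : ℝ) * ((H : ℝ) / t) ≤
      ∑ u ∈ Icc 1 U, (((SC u (Q * H) Q (u % Q)).filter Pr).card : ℝ) := by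
    calc (A.card : ℝ) * ((H : ℝ) / t) = ∑ a ∈ A, ((H : ℝ) / t) := by
          rw [sum_const, nsmul_eq_mul]
      _ ≤ ∑ u ∈ A, (((SC u (Q * H) Q (u % Q)).filter Pr).card : ℝ) := by
          apply sum_le_sum
          intro a ha
          rw [hA, mem_filter] at ha
          exact ha.2.le
      _ ≤ _ := sum_le_sum_of_subset_of_nonneg (filter_subset _ _) (fun _ _ _ => Nat.cast_nonneg _)
  have h2 : ∑ u ∈ Icc 1 U, ((SC u (Q * H) Q (u % Q)).filter Pr).card ≤ H * W := by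
    have e1 : ∀ u ∈ Icc 1 U, ((SC u (Q * H) Q (u % Q)).filter Pr).card =
        ∑ j ∈ Icc 1 H, (if Pr (u + Q * j) then 1 else 0) := by
      intro u _
      rw [card_filter, SC_prog u H Q hQ]
    rw [sum_congr rfl e1, sum_comm]
    have e2 : ∀ j ∈ Icc 1 H, ∑ u ∈ Icc 1 U, (if Pr (u + Q * j) then 1 else 0) ≤ W := by
      intro j hj
      rw [mem_Icc] at hj
      have hQj : Q * j ≤ Q * H := Nat.mul_le_mul_left Q hj.2
      rw [← card_filter, hW]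
      apply card_le_card_of_injOn (fun u => u + Q * j)
      · intro u hu
        rw [mem_coe, mem_filter, mem_Icc] at hu
        have hm : u + Q * j ∈ SC 0 (U + Q * H) 1 0 := by
          unfold SC
          rw [mem_filter, mem_Ioc]
          exact ⟨⟨by omega, by omega⟩, Nat.mod_one _⟩
        exact mem_coe.2 (mem_filter.2 ⟨hm, hu.2⟩)
      · intro u _ v _ huv
        simp only at huv
        omega
    calc ∑ j ∈ Icc 1 H, ∑ u ∈ Icc 1 U, (if Pr (u + Q * j) then 1 else 0) ≤ ∑ j ∈ Icc 1 H, W :=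
          sum_le_sum e2
      _ = H * W := by simp
  have h3 : ∑ u ∈ Icc 1 U, (((SC u (Q * H) Q (u % Q)).filter Pr).card : ℝ) ≤ H * W := by
    exact_mod_cast h2
  have h4 := h1.trans h3
  have h5 : (A.card : ℝ) * ((H : ℝ) / t) = H * (A.card / t) := by ring
  rw [h5] at h4
  have h6 := le_of_mul_le_mul_left h4 hH0
  rw [div_le_iff₀ ht] at h6
  linarith

open Classical in
/-- **Few progressions with many values divisible by the square of a medium prime.** -/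
theorem dct_prog (A B C : ℤ) (hA : A ≠ 0) (hΔ : B ^ 2 - 4 * A * C ≠ 0) (ζ υ ε : ℝ) (hζ : 0 < ζ)
    (hε : 0 < ε) (hε2 : ε ≤ 2 * ζ) : ∃ Y0 : ℕ, ∀ X : ℕ, Y0 ≤ X → ∀ (H Q : ℕ), 0 < H → 0 < Q →
      Q * H ≤ X →
      (((Icc 1 X).filter (fun u : ℕ =>
        (∀ p : ℕ, p.Prime → p ∣ Q → ¬ (p : ℤ) ∣ A * ((u % Q : ℕ) : ℤ) ^ 2 + B * ((u % Q : ℕ) : ℤ) + C) ∧
        7 * (H : ℝ) / (X : ℝ) ^ (ε / 2) <
          (dct A B C (pr X ζ υ) u (Q * H) Q (u % Q) : ℝ))).card : ℝ) ≤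
      ((X : ℝ) / H + (X : ℝ) ^ υ) * (X : ℝ) ^ (2 * ε) := by
  classical
  have ev1 : ∀ᶠ Y : ℕ in atTop, ((A.natAbs + (B ^ 2 - 4 * A * C).natAbs : ℕ) : ℝ) + 4 ≤
      (Y : ℝ) ^ ζ :=
    ((tendsto_rpow_atTop hζ).comp tendsto_natCast_atTop_atTop).eventually_ge_atTop _
  have ev2 : ∀ᶠ Y : ℕ in atTop, (8 : ℝ) ≤ (Y : ℝ) ^ ε :=
    ((tendsto_rpow_atTop hε).comp tendsto_natCast_atTop_atTop).eventually_ge_atTop _
  obtain ⟨Y0, hY0⟩ := eventually_atTop.1 (ev1.and (ev2.and (eventually_ge_atTop 3)))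
  refine ⟨Y0, fun X hX H Q hH hQ hQH => ?_⟩
  obtain ⟨e1, e2, e3⟩ := hY0 X hX
  have hXr : (3 : ℝ) ≤ X := by exact_mod_cast e3
  have hX0 : (0 : ℝ) < X := by linarith
  have hX1r : (1 : ℝ) ≤ X := by linarith
  have hH0 : (0 : ℝ) < H := by exact_mod_cast hH
  have hQ0 : (0 : ℝ) < Q := by exact_mod_cast hQ
  set t : ℝ := (X : ℝ) ^ (ε / 2) with ht
  have ht0 : 0 < t := by positivity
  have htt : t * t = (X : ℝ) ^ ε := by
    rw [ht, ← Real.rpow_add hX0]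
    congr 1
    ring
  have htζ : t ≤ (X : ℝ) ^ ζ := Real.rpow_le_rpow_of_exponent_le hX1r (by linarith)
  have ht1 : 1 ≤ t := Real.one_le_rpow hX1r (by linarith)
  have hXυ : (0 : ℝ) < (X : ℝ) ^ υ := by positivity
  have hX2ε : (X : ℝ) ^ (2 * ε) = (X : ℝ) ^ ε * (X : ℝ) ^ ε := by
    rw [← Real.rpow_add hX0]
    congr 1
    ring
  have hXε0 : (0 : ℝ) < (X : ℝ) ^ ε := by positivity
  have hpr : ∀ q ∈ pr X ζ υ, q.Prime ∧ (X : ℝ) ^ ζ ≤ q ∧ (q : ℝ) ≤ (X : ℝ) ^ υ := by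
    intro q hq
    obtain ⟨u1, u2, u3⟩ := pr_mem X q ζ υ (by omega) hq
    exact ⟨u1, u2, u3.le⟩
  have hgood : ∀ q ∈ pr X ζ υ, q.Prime ∧ ¬ (q : ℤ) ∣ A ∧ ¬ (q : ℤ) ∣ B ^ 2 - 4 * A * C := by
    intro q hq
    obtain ⟨u1, u2, -⟩ := hpr q hq
    have u3 : ((A.natAbs + (B ^ 2 - 4 * A * C).natAbs : ℕ) : ℝ) + 4 ≤ q := e1.trans u2
    have u4 : A.natAbs + (B ^ 2 - 4 * A * C).natAbs + 4 ≤ q := by exact_mod_cast u3
    refine ⟨u1, fun hd => ?_, fun hd => ?_⟩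
    · have h5 := Nat.le_of_dvd (Int.natAbs_pos.2 hA) (Int.natCast_dvd.1 hd)
      omega
    · have h5 := Nat.le_of_dvd (Int.natAbs_pos.2 hΔ) (Int.natCast_dvd.1 hd)
      omega
  rcases lt_or_ge (H : ℝ) (2 * t) with hsm | hbig
  · -- the trivial case
    have h2 := card_filter_le (Icc 1 X) (fun u : ℕ =>
      (∀ p : ℕ, p.Prime → p ∣ Q → ¬ (p : ℤ) ∣ A * ((u % Q : ℕ) : ℤ) ^ 2 + B * ((u % Q : ℕ) : ℤ) + C) ∧
        7 * (H : ℝ) / t < (dct A B C (pr X ζ υ) u (Q * H) Q (u % Q) : ℝ))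
    rw [Nat.card_Icc, Nat.add_sub_cancel] at h2
    have h3 : (X : ℝ) = (X / H) * H := by
      field_simp
    have h4 : 2 * t ≤ (X : ℝ) ^ (2 * ε) := by
      rw [hX2ε, ← htt]
      nlinarith
    calc (((Icc 1 X).filter (fun u : ℕ =>
        (∀ p : ℕ, p.Prime → p ∣ Q → ¬ (p : ℤ) ∣ A * ((u % Q : ℕ) : ℤ) ^ 2 + B * ((u % Q : ℕ) : ℤ) + C) ∧
        7 * (H : ℝ) / t < (dct A B C (pr X ζ υ) u (Q * H) Q (u % Q) : ℝ))).card : ℝ) ≤ X := by
          exact_mod_cast h2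
      _ = (X / H) * H := h3
      _ ≤ (X / H) * (X : ℝ) ^ (2 * ε) := by
          apply mul_le_mul_of_nonneg_left _ (by positivity)
          linarith
      _ ≤ ((X : ℝ) / H + (X : ℝ) ^ υ) * (X : ℝ) ^ (2 * ε) := by
          apply mul_le_mul_of_nonneg_right _ (by positivity)
          linarith
  set R : ℝ := H / t with hR
  have hR2 : 2 ≤ R := by
    rw [hR, le_div_iff₀ ht0]
    exact hbig
  set P1 := (pr X ζ υ).filter (fun q : ℕ => (q : ℝ) < R ∧ ¬ q ∣ Q) with hP1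
  set P2 := (pr X ζ υ).filter (fun q : ℕ => R ≤ (q : ℝ)) with hP2
  have hsub : (Icc 1 X).filter (fun u : ℕ =>
        (∀ p : ℕ, p.Prime → p ∣ Q → ¬ (p : ℤ) ∣ A * ((u % Q : ℕ) : ℤ) ^ 2 + B * ((u % Q : ℕ) : ℤ) + C) ∧
        7 * (H : ℝ) / t < (dct A B C (pr X ζ υ) u (Q * H) Q (u % Q) : ℝ)) ⊆
      (Icc 1 X).filter (fun u => (H : ℝ) / t <
        (((SC u (Q * H) Q (u % Q)).filter (DivS A B C P2)).card : ℝ)) := by
    intro u hu
    rw [mem_filter] at hu ⊢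
    obtain ⟨ha1, ha2, ha3⟩ := hu
    refine ⟨ha1, ?_⟩
    obtain ⟨a, haa⟩ : ∃ a : ℕ, a = u % Q := ⟨_, rfl⟩
    rw [← haa] at ha2 ha3 ⊢
    have h1 : dct A B C (pr X ζ υ) u (Q * H) Q a ≤ ((SC u (Q * H) Q a).filter (DivS A B C P1)).card +
        ((SC u (Q * H) Q a).filter (DivS A B C P2)).card := by
      unfold dct
      refine (card_le_card ?_).trans (card_union_le _ _)
      intro n hn
      rw [mem_filter] at hn
      obtain ⟨hn1, q, hq, hqn⟩ := hn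
      rw [mem_union, mem_filter, mem_filter]
      rcases lt_or_ge (q : ℝ) R with h5 | h5
      · left
        refine ⟨hn1, q, ?_, hqn⟩
        rw [hP1, mem_filter]
        refine ⟨hq, h5, fun hqQ => ?_⟩
        have hqp := (hpr q hq).1
        apply ha2 q hqp hqQ
        unfold SC at hn1
        rw [mem_filter] at hn1
        have h6 : (q : ℤ) ∣ A * (n : ℤ) ^ 2 + B * n + C := by
          refine dvd_trans ?_ hqn
          push_cast
          exact dvd_pow_self _ (by norm_num)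
        have h7 : (q : ℤ) ∣ (n : ℤ) - (a : ℤ) := by
          have h4 : (Q : ℤ) ∣ (n : ℤ) - ((n % Q : ℕ) : ℤ) := by
            rw [Int.natCast_mod]
            exact Int.dvd_self_sub_emod
          rw [hn1.2] at h4
          exact (Int.natCast_dvd_natCast.2 hqQ).trans h4
        have h8 := dvd_sub h6 (h7.mul_right (A * ((n : ℤ) + a) + B))
        have e : A * (n : ℤ) ^ 2 + B * n + C - ((n : ℤ) - a) * (A * ((n : ℤ) + a) + B) =
          A * (a : ℤ) ^ 2 + B * a + C := by ring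
        rwa [e] at h8
      · right
        refine ⟨hn1, q, ?_, hqn⟩
        rw [hP2, mem_filter]
        exact ⟨hq, h5⟩
    have hMQ : (((Q * H : ℕ) : ℝ)) / Q = H := by
      push_cast
      field_simp
    have h2 : (((SC u (Q * H) Q a).filter (DivS A B C P1)).card : ℝ) ≤ 6 * (H / t) := by
      have h3 := divS_card A B C P1 (fun q hq => hgood q (mem_filter.1 hq).1) Q hQ
        (fun q hq => (mem_filter.1 hq).2.2) u (Q * H) a
      rw [hMQ] at h3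
      have h4 : ∑ q ∈ P1, 1 / (q : ℝ) ^ 2 ≤ 2 / (X : ℝ) ^ ζ := by
        apply tail_sq P1 _ (by
          have : (0 : ℝ) ≤ ((A.natAbs + (B ^ 2 - 4 * A * C).natAbs : ℕ) : ℝ) := Nat.cast_nonneg _
          linarith)
        intro q hq
        exact (hpr q (mem_filter.1 hq).1).2.1
      have h5 : (P1.card : ℝ) ≤ R := by
        apply card_lt P1 R (by linarith)
        intro q hq
        exact ⟨(hpr q (mem_filter.1 hq).1).1.one_le, (mem_filter.1 hq).2.1.le⟩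
      have h6 : H * (2 / (X : ℝ) ^ ζ) ≤ 2 * (H / t) := by
        have : 2 / (X : ℝ) ^ ζ ≤ 2 / t := div_le_div_of_nonneg_left (by norm_num) ht0 htζ
        calc H * (2 / (X : ℝ) ^ ζ) ≤ H * (2 / t) := mul_le_mul_of_nonneg_left this hH0.le
          _ = _ := by ring
      have h7 : H * ∑ q ∈ P1, 1 / (q : ℝ) ^ 2 ≤ 2 * (H / t) :=
        (mul_le_mul_of_nonneg_left h4 hH0.le).trans h6
      linarith
    have h3 : (dct A B C (pr X ζ υ) u (Q * H) Q a : ℝ) ≤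
        (((SC u (Q * H) Q a).filter (DivS A B C P1)).card : ℝ) +
        (((SC u (Q * H) Q a).filter (DivS A B C P2)).card : ℝ) := by exact_mod_cast h1
    have h4 : 7 * (H : ℝ) / t = 6 * (H / t) + H / t := by ring
    linarith
  have hB := bad_prog (DivS A B C P2) X H Q hH hQ t ht0
  have hB2 := divS_card A B C P2 (fun q hq => hgood q (mem_filter.1 hq).1) 1 one_pos
    (fun q hq hd => by
      have h1 := (hpr q (mem_filter.1 hq).1).1
      have h2 := Nat.le_of_dvd one_pos hd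
      have h3 := h1.two_le
      omega) 0 (X + Q * H) 0
  have hB3 : ∑ q ∈ P2, 1 / (q : ℝ) ^ 2 ≤ 2 / R :=
    tail_sq P2 R hR2 (fun q hq => (mem_filter.1 hq).2)
  have hB4 : (P2.card : ℝ) ≤ (X : ℝ) ^ υ := by
    apply card_lt P2 _ hXυ.le
    intro q hq
    exact ⟨(hpr q (mem_filter.1 hq).1).1.one_le, (hpr q (mem_filter.1 hq).1).2.2⟩
  have hB5 : (((SC 0 (X + Q * H) 1 0).filter (DivS A B C P2)).card : ℝ) ≤
      8 * t * (X / H) + 2 * (X : ℝ) ^ υ := by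
    refine hB2.trans ?_
    rw [Nat.cast_one, div_one]
    have h0 : (((X + Q * H : ℕ) : ℝ)) ≤ 2 * X := by
      have : X + Q * H ≤ 2 * X := by omega
      exact_mod_cast this
    have h1 : (((X + Q * H : ℕ) : ℝ)) * ∑ q ∈ P2, 1 / (q : ℝ) ^ 2 ≤ 4 * t * (X / H) := by
      calc (((X + Q * H : ℕ) : ℝ)) * ∑ q ∈ P2, 1 / (q : ℝ) ^ 2 ≤ (2 * X) * (2 / R) :=
            mul_le_mul h0 hB3 (sum_nonneg fun _ _ => by positivity) (by positivity)
        _ = 4 * t * (X / H) := by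
            rw [hR]
            field_simp
            ring
    linarith
  calc (((Icc 1 X).filter (fun u : ℕ =>
        (∀ p : ℕ, p.Prime → p ∣ Q → ¬ (p : ℤ) ∣ A * ((u % Q : ℕ) : ℤ) ^ 2 + B * ((u % Q : ℕ) : ℤ) + C) ∧
        7 * (H : ℝ) / t < (dct A B C (pr X ζ υ) u (Q * H) Q (u % Q) : ℝ))).card : ℝ) ≤ _ := by
        exact_mod_cast card_le_card hsub
    _ ≤ t * (((SC 0 (X + Q * H) 1 0).filter (DivS A B C P2)).card : ℝ) := hB
    _ ≤ t * (8 * t * (X / H) + 2 * (X : ℝ) ^ υ) :=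
        mul_le_mul_of_nonneg_left hB5 ht0.le
    _ = 8 * (t * t) * (X / H) + 2 * t * (X : ℝ) ^ υ := by ring
    _ ≤ (X : ℝ) ^ (2 * ε) * (X / H) + (X : ℝ) ^ (2 * ε) * (X : ℝ) ^ υ := by
        apply add_le_add
        · apply mul_le_mul_of_nonneg_right _ (by positivity)
          rw [hX2ε, htt]
          nlinarith
        · apply mul_le_mul_of_nonneg_right _ hXυ.le
          rw [hX2ε, ← htt]
          nlinarith
    _ = ((X : ℝ) / H + (X : ℝ) ^ υ) * (X : ℝ) ^ (2 * ε) := by ring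

/-- the condition on the class and on its least member -/
theorem adm_mod (A B C : ℤ) (Q u p : ℕ) (hpQ : p ∣ Q) :
    (p : ℤ) ∣ A * ((u % Q : ℕ) : ℤ) ^ 2 + B * ((u % Q : ℕ) : ℤ) + C ↔
      (p : ℤ) ∣ A * (u : ℤ) ^ 2 + B * u + C := by
  have h1 : (p : ℤ) ∣ (u : ℤ) - ((u % Q : ℕ) : ℤ) := by
    rw [Int.natCast_mod]
    exact (Int.natCast_dvd_natCast.2 hpQ).trans Int.dvd_self_sub_emod
  have h2 : (p : ℤ) ∣ (A * (u : ℤ) ^ 2 + B * u + C) -
      (A * ((u % Q : ℕ) : ℤ) ^ 2 + B * ((u % Q : ℕ) : ℤ) + C) := by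
    have e : (A * (u : ℤ) ^ 2 + B * u + C) -
      (A * ((u % Q : ℕ) : ℤ) ^ 2 + B * ((u % Q : ℕ) : ℤ) + C) =
      ((u : ℤ) - ((u % Q : ℕ) : ℤ)) * (A * ((u : ℤ) + ((u % Q : ℕ) : ℤ)) + B) := by ring
    rw [e]
    exact h1.mul_right _
  constructor
  · intro h
    have := dvd_add h2 h
    rwa [sub_add_cancel] at this
  · intro h
    have := dvd_sub h h2
    rwa [sub_sub_cancel] at this

/-- the number of the `1 ≤ j ≤ H` such that `A n ^ 2 + B n + C`, `n = u + Q j`, has at most `r`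
prime factors, all at least `z` -/
noncomputable def cntP (A B C : ℤ) (r : ℕ) (z : ℝ) (u H Q : ℕ) : ℕ := by
  classical
  exact ((Icc 1 H).filter (fun j : ℕ =>
    (A * ((u + Q * j : ℕ) : ℤ) ^ 2 + B * ((u + Q * j : ℕ) : ℤ) + C).natAbs.primeFactorsList.length ≤ r ∧
    ∀ p : ℕ, p.Prime → (p : ℤ) ∣ A * ((u + Q * j : ℕ) : ℤ) ^ 2 + B * ((u + Q * j : ℕ) : ℤ) + C →
      z ≤ p)).card

theorem apcG_prog (A B C : ℤ) (r : ℕ) (z : ℝ) (u H Q : ℕ) (hQ : 0 < Q) :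
    apcG A B C r z u (Q * H) Q (u % Q) = cntP A B C r z u H Q := by
  classical
  unfold apcG cntP
  rw [card_filter, card_filter, SC_prog u H Q hQ]

open Classical in
theorem finP {A B C : ℤ} (hQd : Pool.Agent.L7h2.QS.Adm A B C) (r : ℕ) (τ ζ υ lam S : ℝ) (hζ : 0 < ζ)
    (h2 : 2 * ζ < τ)
    (h4 : τ ≤ 4 * ζ) (hτ : τ < 1) (hτ2 : 1 / 2 ≤ τ) (hζυ : ζ ≤ υ) (hυτ : υ < τ) (hlam : 0 < lam)
    (hJ0 : ∫ x in ζ..υ, (lam - lam / υ * x) / (τ - x) / x < Real.log (τ / ζ - 1) / τ) (hS : 2 < S)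
    (hr : 1 / lam + S / υ ≤ r + 1) (κ : ℝ) (hκ1 : υ ≤ κ) (ε : ℝ) (hε : 0 < ε) :
    ∃ δ : ℝ, 0 < δ ∧ ∀ᶠ X : ℕ in atTop, ∀ H Q : ℕ, 1 ≤ H → 1 ≤ Q → Q * H ≤ X →
      (((Icc 1 X).filter (fun u : ℕ =>
        (∀ p : ℕ, p.Prime → p ∣ Q → ¬ (p : ℤ) ∣ A * (u : ℤ) ^ 2 + B * u + C) ∧
        (cntP A B C r ((X : ℝ) ^ ζ) u H Q : ℝ) <
        δ * (lfG (QG A B C) Q * H / Real.log X))).card : ℝ) ≤
      ((X : ℝ) ^ (2 * τ) / H + (X : ℝ) ^ κ) * (X : ℝ) ^ ε := by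
  have hυ0 : 0 < υ := by linarith
  have hυ1 : υ ≤ 1 := by linarith
  have hro := ro_lt hQd
  have hΔ0 : B ^ 2 - 4 * A * C ≠ 0 := by
    intro h
    apply hQd.disc
    rw [h]
    exact ⟨0, by simp⟩
  obtain ⟨e', he'0, he'1, he'2⟩ : ∃ e' : ℝ, 0 < e' ∧ e' ≤ ε / 4 ∧ e' ≤ 2 * ζ :=
    ⟨min (ε / 4) (2 * ζ), lt_min (by linarith) (by linarith), min_le_left _ _, min_le_right _ _⟩
  obtain ⟨δ, ε₁, η, hδ, hε₁, hε₁ζ, hε₁β, hη, Y1, HE⟩ := engP 2 1 τ ζ υ lam (lam / υ) (ε / 2)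
    one_pos hζ h2 h4 hτ hζυ hυτ hlam.le (by positivity) (by rw [div_mul_cancel₀ _ hυ0.ne']) hJ0
    (by linarith)
  obtain ⟨Y2, HM⟩ := mer_QG' hQd ε₁ υ (η / 2) hε₁ hυ1 (by linarith)
  obtain ⟨Y5, HD⟩ := mer_drop ε₁ υ η hε₁ hη
  obtain ⟨c, hc, HL⟩ := lo_QG hQd
  obtain ⟨Y3, HB⟩ := dct_prog A B C hQd.ne hΔ0 ζ υ e' hζ he'0 he'2
  have ev1 : ∀ᶠ Y : ℕ in atTop, (3 : ℝ) ≤ (Y : ℝ) ^ (ε / 2) :=
    ((tendsto_rpow_atTop (by linarith)).comp tendsto_natCast_atTop_atTop).eventually_ge_atTop _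
  have ev3 : ∀ᶠ Y : ℕ in atTop, 14 / (δ * c) * Real.log Y ≤ (Y : ℝ) ^ (e' / 2) := by
    have h1 := (isLittleO_log_rpow_atTop (show 0 < e' / 2 by linarith)).bound
      (show (0 : ℝ) < δ * c / 14 by positivity)
    filter_upwards [tendsto_natCast_atTop_atTop.eventually h1, eventually_ge_atTop 1] with Y hY hY1
    have hY1r : (1 : ℝ) ≤ Y := by exact_mod_cast hY1
    rw [Real.norm_of_nonneg (Real.log_nonneg hY1r), Real.norm_of_nonneg (by positivity)] at hY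
    rw [div_mul_eq_mul_div, div_le_iff₀ (by positivity)]
    linarith
  have ev4 : ∀ᶠ Y : ℕ in atTop, 4 * |(A : ℝ)| + 2 * |(B : ℝ)| + |(C : ℝ)| ≤ (Y : ℝ) ^ (S - 2) :=
    ((tendsto_rpow_atTop (by linarith)).comp tendsto_natCast_atTop_atTop).eventually_ge_atTop _
  refine ⟨δ * c / 2, by positivity, ?_⟩
  filter_upwards [ev1, ev3, ev4, eventually_ge_atTop 3, eventually_ge_atTop Y1,
    eventually_ge_atTop Y2, eventually_ge_atTop Y3, eventually_ge_atTop Y5] with X e1 e3 e4 e5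
    hX1 hX2 hX3 hX5 H Q hH hQ hQH
  have hXr : (3 : ℝ) ≤ X := by exact_mod_cast e5
  have hX0 : (0 : ℝ) < X := by linarith
  have hX1r : (1 : ℝ) ≤ X := by linarith
  have hlX : 0 < Real.log X := Real.log_pos (by linarith)
  have hH0 : (0 : ℝ) < H := by exact_mod_cast hH
  have hQ0 : (0 : ℝ) < Q := by exact_mod_cast hQ
  have hQX : Q ≤ X := (Nat.le_mul_of_pos_right Q hH).trans hQH
  have hMer := HD X hX5 Q hQ hQX (fun p => (ro (QG A B C) 0 p : ℝ) / p) (rhoG_abs hQd) (HM X hX2)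
  have hMer2 : Mer (pr X ε₁ υ) (tt X) (fun p => (rq (QG A B C) Q p : ℝ) / p) ε₁ υ η := by
    have : (fun p : ℕ => (rq (QG A B C) Q p : ℝ) / p) =
        (fun p : ℕ => if p ∣ Q then 0 else (ro (QG A B C) 0 p : ℝ) / p) := by
      funext p
      unfold rq
      split_ifs <;> simp
    rw [this]
    exact hMer
  have hA := HE X hX1 (QG A B C) X H Q X (fun p hp => ro_QG_le hQd p hp) hH hQ
    (by rw [Real.rpow_one]) hMer2
  rw [loqG_eq (QG A B C) hro Q X hQ hQX] at hA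
  have hL := HL X e5
  set t : ℝ := (X : ℝ) ^ (e' / 2) with ht
  have ht0 : 0 < t := by positivity
  have hB := HB X hX3 H Q hH hQ hQH
  have hlf := lfG_one (QG A B C) hro Q
  set l : ℝ := lfG (QG A B C) Q with hl
  set A1 := (Icc 1 X).filter (fun u => Adm (QG A B C) Q (u % Q) ∧
    ((pW (QG A B C) X ζ υ lam (lam / υ) u (Q * H) Q (u % Q)).card : ℝ) <
      δ * H * (lo (QG A B C) X * l)) with hA1
  set A2 := (Icc 1 X).filter (fun u : ℕ =>
    (∀ p : ℕ, p.Prime → p ∣ Q →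
      ¬ (p : ℤ) ∣ A * ((u % Q : ℕ) : ℤ) ^ 2 + B * ((u % Q : ℕ) : ℤ) + C) ∧
        7 * (H : ℝ) / t < (dct A B C (pr X ζ υ) u (Q * H) Q (u % Q) : ℝ)) with hA2
  have hsub : (Icc 1 X).filter (fun u : ℕ =>
      (∀ p : ℕ, p.Prime → p ∣ Q → ¬ (p : ℤ) ∣ A * (u : ℤ) ^ 2 + B * u + C) ∧
      (cntP A B C r ((X : ℝ) ^ ζ) u H Q : ℝ) <
        δ * c / 2 * (l * H / Real.log X)) ⊆ A1 ∪ A2 := by
    intro u ha
    rw [mem_filter] at ha
    rw [mem_union]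
    by_contra hcon
    push Not at hcon
    obtain ⟨hc1, hc2⟩ := hcon
    have hadm2 : ∀ p : ℕ, p.Prime → p ∣ Q →
        ¬ (p : ℤ) ∣ A * ((u % Q : ℕ) : ℤ) ^ 2 + B * ((u % Q : ℕ) : ℤ) + C := by
      intro p hp hpQ hd
      exact ha.2.1 p hp hpQ ((adm_mod A B C Q u p hpQ).1 hd)
    have hadm : Adm (QG A B C) Q (u % Q) := by
      intro p hp hpQ hd
      rw [QG_eval] at hd
      exact hadm2 p hp hpQ hd
    have g1 : δ * H * (lo (QG A B C) X * l) ≤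
        ((pW (QG A B C) X ζ υ lam (lam / υ) u (Q * H) Q (u % Q)).card : ℝ) := by
      by_contra h'
      exact hc1 (by rw [hA1, mem_filter]; exact ⟨ha.1, hadm, not_le.1 h'⟩)
    have g2 : (dct A B C (pr X ζ υ) u (Q * H) Q (u % Q) : ℝ) ≤ 7 * H / t := by
      by_contra h'
      exact hc2 (by rw [hA2, mem_filter]; exact ⟨ha.1, hadm2, not_le.1 h'⟩)
    have huX : u ≤ X := (mem_Icc.1 ha.1).2
    have g3 := pWG_le hQd X (by omega) ζ υ lam S r hζυ hυ0 hυ1 hlam hr e4 u (Q * H) Q (u % Q) huX hQH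
    rw [apcG_prog A B C r _ u H Q hQ] at g3
    have g3r : ((pW (QG A B C) X ζ υ lam (lam / υ) u (Q * H) Q (u % Q)).card : ℝ) ≤
        (cntP A B C r ((X : ℝ) ^ ζ) u H Q : ℝ) +
          (dct A B C (pr X ζ υ) u (Q * H) Q (u % Q) : ℝ) := by
      exact_mod_cast g3
    have g5 : δ * H * (c / Real.log X * l) ≤ δ * H * (lo (QG A B C) X * l) := by
      apply mul_le_mul_of_nonneg_left _ (by positivity)
      exact mul_le_mul_of_nonneg_right hL (by linarith)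
    have g6 : 7 * (H : ℝ) / t ≤ δ * H * (c / Real.log X) / 2 := by
      rw [div_mul_eq_mul_div, div_le_iff₀ (by positivity)] at e3
      rw [div_le_iff₀ ht0]
      have u6 : δ * H * (c / Real.log X) / 2 * t = H * (δ * c * t / (2 * Real.log X)) := by
        field_simp
      rw [u6, mul_comm 7 (H : ℝ)]
      apply mul_le_mul_of_nonneg_left _ hH0.le
      rw [le_div_iff₀ (by positivity)]
      linarith
    have g8 : 0 ≤ δ * H * (c / Real.log X) / 2 := by positivity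
    have g9 : δ * H * (c / Real.log X) / 2 ≤ δ * H * (c / Real.log X) / 2 * l :=
      le_mul_of_one_le_right g8 hlf
    have g10 : δ * c / 2 * (l * H / Real.log X) =
        δ * H * (c / Real.log X * l) - δ * H * (c / Real.log X) / 2 * l := by
      field_simp
      ring
    linarith [ha.2.2]
  have hXε0 : (0 : ℝ) < (X : ℝ) ^ (ε / 2) := by positivity
  have hXε : (X : ℝ) ^ ε = (X : ℝ) ^ (ε / 2) * (X : ℝ) ^ (ε / 2) := by
    rw [← Real.rpow_add hX0]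
    congr 1
    ring
  set V1 : ℝ := (X : ℝ) ^ (2 * τ) / H with hV1
  set V2 : ℝ := (X : ℝ) ^ κ with hV2
  have hV10 : 0 ≤ V1 := by positivity
  have hV20 : 0 ≤ V2 := by positivity
  have hXτ : (X : ℝ) ≤ (X : ℝ) ^ (2 * τ) := by
    calc (X : ℝ) = (X : ℝ) ^ (1 : ℝ) := (Real.rpow_one _).symm
      _ ≤ _ := Real.rpow_le_rpow_of_exponent_le hX1r (by linarith)
  have r1 : (A1.card : ℝ) ≤ 2 * V1 * (X : ℝ) ^ (ε / 2) := by
    refine hA.trans ?_
    apply mul_le_mul_of_nonneg_right _ hXε0.le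
    rw [hV1, ← mul_div_assoc]
    apply div_le_div_of_nonneg_right _ hH0.le
    linarith
  have r2 : (A2.card : ℝ) ≤ (V1 + V2) * (X : ℝ) ^ (ε / 2) := by
    refine hB.trans ?_
    have u1 : (X : ℝ) ^ (2 * e') ≤ (X : ℝ) ^ (ε / 2) :=
      Real.rpow_le_rpow_of_exponent_le hX1r (by linarith)
    have u2 : (X : ℝ) ^ υ ≤ V2 := Real.rpow_le_rpow_of_exponent_le hX1r hκ1
    have u3 : (X : ℝ) / H ≤ V1 := div_le_div_of_nonneg_right hXτ hH0.le
    exact mul_le_mul (add_le_add u3 u2) u1 (by positivity) (by positivity)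
  have r3 : (((Icc 1 X).filter (fun u : ℕ =>
      (∀ p : ℕ, p.Prime → p ∣ Q → ¬ (p : ℤ) ∣ A * (u : ℤ) ^ 2 + B * u + C) ∧
      (cntP A B C r ((X : ℝ) ^ ζ) u H Q : ℝ) <
        δ * c / 2 * (l * H / Real.log X))).card : ℝ) ≤ ((A1 ∪ A2).card : ℝ) := by
    exact_mod_cast card_le_card hsub
  have r4 : ((A1 ∪ A2).card : ℝ) ≤ A1.card + A2.card := by exact_mod_cast card_union_le _ _
  have r5 : 2 * V1 * (X : ℝ) ^ (ε / 2) + (V1 + V2) * (X : ℝ) ^ (ε / 2) ≤ (V1 + V2) * (X : ℝ) ^ ε := by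
    rw [hXε]
    have w1 : 2 * V1 * (X : ℝ) ^ (ε / 2) ≤ 2 * (V1 + V2) * (X : ℝ) ^ (ε / 2) :=
      mul_le_mul_of_nonneg_right (by linarith) hXε0.le
    have w2 : 3 * ((V1 + V2) * (X : ℝ) ^ (ε / 2)) ≤
        (X : ℝ) ^ (ε / 2) * ((V1 + V2) * (X : ℝ) ^ (ε / 2)) :=
      mul_le_mul_of_nonneg_right e1 (by positivity)
    calc 2 * V1 * (X : ℝ) ^ (ε / 2) + (V1 + V2) * (X : ℝ) ^ (ε / 2) ≤
        3 * ((V1 + V2) * (X : ℝ) ^ (ε / 2)) := by linarith
      _ ≤ (X : ℝ) ^ (ε / 2) * ((V1 + V2) * (X : ℝ) ^ (ε / 2)) := w2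
      _ = _ := by ring
  linarith

open Classical in
theorem finAllP {A B C : ℤ} (hQd : Pool.Agent.L7h2.QS.Adm A B C) (r : ℕ) (t z : ℝ)
    (hpar : (r = 5 ∧ 1 / 2 ≤ t ∧ z = 2 / 5 * t) ∨ (r = 4 ∧ 269 / 500 ≤ t ∧ z = t / 4) ∨
      (r = 3 ∧ 29 / 40 ≤ t ∧ z = t / 4)) (ht : t < 1) (ε : ℝ) (hε : 0 < ε) :
    ∃ δ : ℝ, 0 < δ ∧ ∀ᶠ X : ℕ in atTop, ∀ H Q : ℕ, 1 ≤ H → 1 ≤ Q → Q * H ≤ X →
      (((Icc 1 X).filter (fun u : ℕ =>
        (∀ p : ℕ, p.Prime → p ∣ Q → ¬ (p : ℤ) ∣ A * (u : ℤ) ^ 2 + B * u + C) ∧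
        (cntP A B C r ((X : ℝ) ^ z) u H Q : ℝ) <
        δ * (lfG (QG A B C) Q * H / Real.log X))).card : ℝ) ≤
      ((X : ℝ) ^ (2 * t) / H + (X : ℝ) ^ (24 / 25 * t)) * (X : ℝ) ^ ε := by
  have h3 : ∀ r : ℕ, 9 / 8 + 2001 / 1000 / (24 / 25 * t) ≤ (r : ℝ) + 1 → 1 / 2 ≤ t →
      ∃ δ : ℝ, 0 < δ ∧ ∀ᶠ X : ℕ in atTop, ∀ H Q : ℕ, 1 ≤ H → 1 ≤ Q → Q * H ≤ X →
      (((Icc 1 X).filter (fun u : ℕ =>
        (∀ p : ℕ, p.Prime → p ∣ Q → ¬ (p : ℤ) ∣ A * (u : ℤ) ^ 2 + B * u + C) ∧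
        (cntP A B C r ((X : ℝ) ^ (t / 4)) u H Q : ℝ) <
        δ * (lfG (QG A B C) Q * H / Real.log X))).card : ℝ) ≤
      ((X : ℝ) ^ (2 * t) / H + (X : ℝ) ^ (24 / 25 * t)) * (X : ℝ) ^ ε := by
    intro r hr h29
    exact finP hQd r t (t / 4) (24 / 25 * t) (8 / 9) (2001 / 1000) (by linarith) (by linarith)
      (by linarith) ht h29 (by linarith) (by linarith) (by norm_num)
      (cond_A t (8 / 9) (by linarith) (by norm_num) (by norm_num)) (by norm_num)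
      (by norm_num at hr ⊢; linarith) (24 / 25 * t) le_rfl ε hε
  rcases hpar with ⟨hr, h1, hz⟩ | ⟨hr, h1, hz⟩ | ⟨hr, h1, hz⟩
  · subst hr
    subst hz
    refine finP hQd 5 t (2 / 5 * t) (9 / 10 * t) (20 / 31) (1001 / 500) (by linarith) (by linarith)
      (by linarith) ht h1 (by linarith) (by linarith) (by norm_num)
      (cond_B t (20 / 31) (by linarith) (by norm_num) (by norm_num)) (by norm_num) ?_
      (24 / 25 * t) (by linarith) ε hε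
    have : (1001 / 500 : ℝ) / (9 / 10 * t) ≤ (1001 / 500) / (9 / 10 * (1 / 2)) :=
      div_le_div_of_nonneg_left (by norm_num) (by norm_num) (by linarith)
    norm_num at this ⊢
    linarith
  · subst hr
    subst hz
    refine h3 4 ?_ (by linarith)
    have : (2001 / 1000 : ℝ) / (24 / 25 * t) ≤ (2001 / 1000) / (24 / 25 * (269 / 500)) :=
      div_le_div_of_nonneg_left (by norm_num) (by norm_num) (by linarith)
    norm_num at this ⊢
    linarith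
  · subst hr
    subst hz
    refine h3 3 ?_ (by linarith)
    have : (2001 / 1000 : ℝ) / (24 / 25 * t) ≤ (2001 / 1000) / (24 / 25 * (29 / 40)) :=
      div_le_div_of_nonneg_left (by norm_num) (by norm_num) (by linarith)
    norm_num at this ⊢
    linarith

end Pool.Agent.L7h27.PR
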