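import Pool.Agent.L7h27.AP.Eng
import Pool.Agent.L7h27.AP.Low

/-! Values of polynomials in short progressions with an arbitrary difference: mean square of the error
terms over the first terms. -/

set_option autoImplicit false

namespace Pool.Agent.L7h27.PR

open Finset Polynomial Filter
open H343 (ex)
open Pool.Agent.W23.DC
open Pool.Agent.Y882
open Pool.Agent.Y882.PX
open Pool.Agent.Y882.SI
open Pool.Agent.L7h27.AP

/-- the members of `u + Q, ..., u + H Q` -/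
theorem SC_prog {R : Type} [AddCommMonoid R] (u H Q : ℕ) (hQ : 0 < Q) (g : ℕ → R) :
    ∑ n ∈ SC u (Q * H) Q (u % Q), g n = ∑ j ∈ Icc 1 H, g (u + Q * j) := by
  symm
  apply sum_bij (fun j _ => u + Q * j)
  · intro j hj
    rw [mem_Icc] at hj
    unfold SC
    rw [mem_filter, mem_Ioc]
    have h1 : 0 < Q * j := Nat.mul_pos hQ (by omega)
    have h2 : Q * j ≤ Q * H := Nat.mul_le_mul_left Q hj.2
    exact ⟨⟨by omega, by omega⟩, Nat.add_mul_mod_self_left u Q j⟩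
  · intro j _ j' _ h
    have : Q * j = Q * j' := by omega
    exact Nat.eq_of_mul_eq_mul_left hQ this
  · intro n hn
    unfold SC at hn
    rw [mem_filter, mem_Ioc] at hn
    obtain ⟨⟨h1, h2⟩, h3⟩ := hn
    have h4 : u ≡ n [MOD Q] := h3.symm
    obtain ⟨k, hk⟩ := (Nat.modEq_iff_dvd' h1.le).1 h4
    refine ⟨k, ?_, by omega⟩
    rw [mem_Icc]
    constructor
    · rw [Nat.one_le_iff_ne_zero]
      rintro rfl
      simp at hk
      omega
    · have : Q * k ≤ Q * H := by omega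
      exact Nat.le_of_mul_le_mul_left this hQ
  · intro j _
    rfl

theorem SC_prog_card (u H Q : ℕ) (hQ : 0 < Q) : (SC u (Q * H) Q (u % Q)).card = H := by
  have h := SC_prog u H Q hQ (fun _ => (1 : ℕ))
  simpa using h

theorem KS_sq (H f : ℕ) (hf : 0 < f) : ∑ b ∈ (range f).erase 0, ‖KS H f b‖ ^ 2 ≤ f * H := by
  classical
  set h' := H % f with hh'
  have hh'f : h' < f := Nat.mod_lt _ hf
  have hh'h : h' ≤ H := Nat.mod_le _ _
  have h1 : ∑ b ∈ (range f).erase 0, ‖KS H f b‖ ^ 2 ≤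
      ∑ b ∈ range f, ‖∑ x ∈ Icc 1 h', ex ((b : ℝ) * ((x : ℤ) : ℤ) / f)‖ ^ 2 := by
    calc ∑ b ∈ (range f).erase 0, ‖KS H f b‖ ^ 2 =
        ∑ b ∈ (range f).erase 0, ‖∑ x ∈ Icc 1 h', ex ((b : ℝ) * ((x : ℤ) : ℤ) / f)‖ ^ 2 := by
          apply sum_congr rfl
          intro b hb
          rw [mem_erase, mem_range] at hb
          rw [KS_mod H f b (by omega) hb.2]
          rfl
      _ ≤ _ := sum_le_sum_of_subset_of_nonneg (erase_subset _ _) (fun _ _ _ => by positivity)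
  refine h1.trans ?_
  rw [parse f hf (Icc 1 h') (fun x => (x : ℤ))]
  apply mul_le_mul_of_nonneg_left _ (Nat.cast_nonneg _)
  have h3 : (((Icc 1 h') ×ˢ (Icc 1 h')).filter (fun z => (f : ℤ) ∣ (z.1 : ℤ) - (z.2 : ℤ))).card ≤
      (Icc 1 h').card := by
    apply card_le_card_of_injOn (fun z => z.1)
    · intro z hz
      rw [mem_coe, mem_filter, mem_product] at hz
      exact hz.1.1
    · intro z hz w hw hzw
      rw [mem_coe, mem_filter, mem_product, mem_Icc, mem_Icc] at hz hw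
      simp only at hzw
      have e1 : ∀ y : ℕ × ℕ, ((1 ≤ y.1 ∧ y.1 ≤ h') ∧ 1 ≤ y.2 ∧ y.2 ≤ h') ∧
          (f : ℤ) ∣ (y.1 : ℤ) - (y.2 : ℤ) → y.1 = y.2 := by
        rintro y ⟨⟨a1, a2⟩, a3⟩
        have h8 : (y.1 : ℤ) - (y.2 : ℤ) = 0 := by
          apply Int.eq_zero_of_abs_lt_dvd a3
          rw [abs_lt]
          constructor <;> omega
        omega
      have e2 := e1 z hz
      have e3 := e1 w hw
      exact Prod.ext hzw (by rw [← e2, ← e3, hzw])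
  have h4 : (Icc 1 h').card = h' := by simp
  rw [h4] at h3
  exact_mod_cast h3.trans hh'h

theorem KS_per (H f b : ℕ) (hf : 0 < f) : KS H f b = KS H f (b % f) := by
  unfold KS
  apply sum_congr rfl
  intro j _
  have hf0 : (f : ℝ) ≠ 0 := by exact_mod_cast hf.ne'
  obtain ⟨k, hk⟩ : ∃ k : ℕ, k = b / f := ⟨_, rfl⟩
  have h1 : (b : ℝ) = ((b % f : ℕ) : ℝ) + f * (k : ℝ) := by
    rw [hk]
    exact_mod_cast (Nat.mod_add_div b f).symm
  have h2 : (b : ℝ) * ((j : ℤ) : ℝ) / f =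
      ((b % f : ℕ) : ℝ) * ((j : ℤ) : ℝ) / f + ((k : ℤ) * (j : ℤ) : ℤ) := by
    conv_lhs => rw [h1]
    push_cast
    field_simp
  rw [h2, H343.Gauss.ex_add, H343.Gauss.ex_int, mul_one]

theorem KSQ_sq (H f Q : ℕ) (hf : 0 < f) (hfQ : f.Coprime Q) :
    ∑ b ∈ (range f).erase 0, ‖KS H f (Q * b)‖ ^ 2 ≤ f * H := by
  classical
  refine le_trans ?_ (KS_sq H f hf)
  set φ : ℕ → ℕ := fun b => (Q * b) % f with hφ
  have hinj : Set.InjOn φ ((range f).erase 0 : Finset ℕ) := by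
    intro x hx y hy hxy
    rw [mem_coe, mem_erase, mem_range] at hx hy
    have h1 : Q * x ≡ Q * y [MOD f] := hxy
    have h2 : x ≡ y [MOD f] := Nat.ModEq.cancel_left_of_coprime hfQ h1
    exact Nat.ModEq.eq_of_lt_of_lt h2 hx.2 hy.2
  have hmap : ∀ b ∈ (range f).erase 0, φ b ∈ (range f).erase 0 := by
    intro b hb
    rw [mem_erase, mem_range] at hb ⊢
    refine ⟨fun h0 => ?_, Nat.mod_lt _ hf⟩
    have h1 : f ∣ Q * b := Nat.dvd_of_mod_eq_zero h0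
    have h2 : f ∣ b := hfQ.dvd_of_dvd_mul_left h1
    have := Nat.le_of_dvd (by omega) h2
    omega
  calc ∑ b ∈ (range f).erase 0, ‖KS H f (Q * b)‖ ^ 2 =
      ∑ b ∈ (range f).erase 0, ‖KS H f (φ b)‖ ^ 2 := by
        apply sum_congr rfl
        intro b _
        rw [KS_per H f (Q * b) hf]
    _ = ∑ b ∈ ((range f).erase 0).image φ, ‖KS H f b‖ ^ 2 :=
        (sum_image (f := fun b => ‖KS H f b‖ ^ 2) hinj).symm
    _ ≤ _ := by
        apply sum_le_sum_of_subset_of_nonneg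
        · intro b hb
          rw [mem_image] at hb
          obtain ⟨b', hb', rfl⟩ := hb
          exact hmap b' hb'
        · intro _ _ _
          positivity

/-- **Mean square over the first terms.** -/
theorem var_prog (F : ℤ[X]) (P : Finset ℕ) (hP : ∀ p ∈ P, p.Prime) (c : Finset ℕ → ℝ) (L : ℝ)
    (hL : ∀ T, |c T| ≤ L) (D : ℕ) (B : ℝ) (hB0 : 0 ≤ B)
    (hB : ∀ T ⊆ P, ∏ p ∈ T, p ≤ D → (ro F 0 (∏ p ∈ T, p) : ℝ) ≤ B)
    (hc : ∀ T ⊆ P, c T ≠ 0 → ∏ p ∈ T, p ≤ D) (U H Q : ℕ) (hQ : 0 < Q) (hPQ : ∀ p ∈ P, ¬ p ∣ Q) :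
    ∑ u ∈ Icc 1 U, (∑ n ∈ SC u (Q * H) Q (u % Q), EW F P c n) ^ 2 ≤
      6 * (U + (D : ℝ) ^ 2) * ((L * B) ^ 2 * (1 + Real.log D) ^ 3 * H) := by
  classical
  have hL0 : 0 ≤ L := (abs_nonneg _).trans (hL ∅)
  have hlD : 0 ≤ Real.log D := Real.log_natCast_nonneg D
  set G : ℕ → ℕ → ℂ := fun f b => GP F P c D f b * KS H f (Q * b) with hG
  have key1 : ∀ u : ℕ, ((∑ n ∈ SC u (Q * H) Q (u % Q), EW F P c n : ℝ) : ℂ) =
      ∑ f ∈ Icc 1 D, ∑ b ∈ (range f).filter (fun b => b.Coprime f),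
        ex ((u : ℝ) * b / f) * G f b := by
    intro u
    rw [SC_prog u H Q hQ, Complex.ofReal_sum]
    have h1 : ∀ j ∈ Icc 1 H, ((EW F P c (u + Q * j) : ℝ) : ℂ) =
        ∑ f ∈ Icc 1 D, ∑ b ∈ (range f).filter (fun b => b.Coprime f),
          ex (((u + Q * j : ℕ) : ℝ) * ((b : ℝ) / f)) * GP F P c D f b := by
      intro j hj
      rw [mem_Icc] at hj
      apply key F P hP c D hc
      have : 0 < Q * j := Nat.mul_pos hQ (by omega)
      omega
    rw [sum_congr rfl h1, sum_comm]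
    apply sum_congr rfl
    intro f hf
    rw [sum_comm]
    apply sum_congr rfl
    intro b _
    simp only [hG]
    unfold KS
    rw [mul_sum, mul_sum]
    apply sum_congr rfl
    intro j _
    have e : ex (((u + Q * j : ℕ) : ℝ) * ((b : ℝ) / f)) =
        ex ((u : ℝ) * b / f) * ex (((Q * b : ℕ) : ℝ) * ((j : ℤ) : ℝ) / f) := by
      rw [← H343.Gauss.ex_add]
      congr 1
      push_cast
      ring
    rw [e]
    ring
  have h1 : ∑ u ∈ Icc 1 U, (∑ n ∈ SC u (Q * H) Q (u % Q), EW F P c n) ^ 2 =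
      ∑ u ∈ Icc 1 U, ‖∑ f ∈ Icc 1 D, ∑ b ∈ (range f).filter (fun b => b.Coprime f),
        ex ((u : ℝ) * b / f) * G f b‖ ^ 2 := by
    apply sum_congr rfl
    intro u _
    rw [← key1 u, Complex.norm_real, Real.norm_eq_abs, sq_abs]
  rw [h1]
  refine (dual_nat U D G).trans ?_
  apply mul_le_mul_of_nonneg_left _ (by positivity)
  have h2 : ∀ f ∈ Icc 1 D, ∑ b ∈ (range f).filter (fun b => b.Coprime f), ‖G f b‖ ^ 2 ≤
      (L * B) ^ 2 * (1 + Real.log D) ^ 2 * H * (1 / (f : ℝ)) := by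
    intro f hf
    rw [mem_Icc] at hf
    have hf0 : (0 : ℝ) < f := by exact_mod_cast hf.1
    by_cases hcop : f.Coprime Q
    · have hG0 : ‖G f 0‖ ^ 2 = 0 := by
        simp only [hG]
        rw [GP_zero, zero_mul, norm_zero]
        norm_num
      calc ∑ b ∈ (range f).filter (fun b => b.Coprime f), ‖G f b‖ ^ 2 ≤
          ∑ b ∈ range f, ‖G f b‖ ^ 2 :=
            sum_le_sum_of_subset_of_nonneg (filter_subset _ _) (fun _ _ _ => by positivity)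
        _ = ∑ b ∈ (range f).erase 0, ‖G f b‖ ^ 2 := (sum_erase (f := fun b => ‖G f b‖ ^ 2) _ hG0).symm
        _ ≤ ∑ b ∈ (range f).erase 0, (L * B * (1 + Real.log D) / f) ^ 2 * ‖KS H f (Q * b)‖ ^ 2 := by
            apply sum_le_sum
            intro b _
            simp only [hG]
            rw [norm_mul, mul_pow]
            apply mul_le_mul_of_nonneg_right _ (by positivity)
            exact pow_le_pow_left₀ (norm_nonneg _) (GP_le F P hP c L hL D B hB0 hB f b hf.1) 2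
        _ = (L * B * (1 + Real.log D) / f) ^ 2 * ∑ b ∈ (range f).erase 0, ‖KS H f (Q * b)‖ ^ 2 := by
            rw [mul_sum]
        _ ≤ (L * B * (1 + Real.log D) / f) ^ 2 * (f * H) :=
            mul_le_mul_of_nonneg_left (KSQ_sq H f Q hf.1 hcop) (by positivity)
        _ = _ := by
            field_simp
    · have h3 : ∑ b ∈ (range f).filter (fun b => b.Coprime f), ‖G f b‖ ^ 2 = 0 := by
        apply sum_eq_zero
        intro b _
        simp only [hG]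
        rw [GP_ncop F P hP c D Q f b hPQ hcop, zero_mul, norm_zero]
        norm_num
      rw [h3]
      positivity
  calc ∑ f ∈ Icc 1 D, ∑ b ∈ (range f).filter (fun b => b.Coprime f), ‖G f b‖ ^ 2
      ≤ ∑ f ∈ Icc 1 D, (L * B) ^ 2 * (1 + Real.log D) ^ 2 * H * (1 / (f : ℝ)) := sum_le_sum h2
    _ = (L * B) ^ 2 * (1 + Real.log D) ^ 2 * H * ∑ f ∈ Icc 1 D, (1 / (f : ℝ)) := by rw [mul_sum]
    _ ≤ (L * B) ^ 2 * (1 + Real.log D) ^ 2 * H * (1 + Real.log D) := by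
        apply mul_le_mul_of_nonneg_left (harm_le D) (by positivity)
    _ = _ := by ring

open Classical in
/-- few progressions with a large error term -/
theorem few_prog (K : ℕ) (τ' ε : ℝ) (hτ0 : 0 < τ') (hτ1 : τ' ≤ 1) (hε : 0 < ε) :
    ∃ Y0 : ℕ, ∀ Y : ℕ, Y0 ≤ Y → ∀ (F : ℤ[X]) (P : Finset ℕ) (c : Finset ℕ → ℝ) (U H Q : ℕ),
      (∀ p ∈ P, p.Prime) → (∀ p ∈ P, ¬ p ∣ Q) → (∀ p ∈ P, ro F 0 p ≤ K) →
      (∀ T, |c T| ≤ (Y : ℝ) ^ (ε / 64)) →
      (∀ T ⊆ P, c T ≠ 0 → ((∏ p ∈ T, p : ℕ) : ℝ) ≤ (Y : ℝ) ^ τ') → 0 < H → 0 < Q →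
      (((Icc 1 U).filter (fun u => (H : ℝ) * (Y : ℝ) ^ (-(ε / 16)) <
        |∑ n ∈ SC u (Q * H) Q (u % Q), EW F P c n|)).card : ℝ) ≤
      (U + (Y : ℝ) ^ (2 * τ')) / H * (Y : ℝ) ^ (ε / 2) := by
  obtain ⟨C, hC1, HC⟩ := pow_card_le K (ε / (32 * τ')) (by positivity)
  have ev1 : ∀ᶠ Y : ℕ in atTop, 6 * C ^ 2 * (2 * Real.log ((Y : ℝ))) ^ 3 ≤
      (Y : ℝ) ^ (ε / 32) := by
    have h1 : Tendsto (fun x : ℝ => Real.log x ^ (3 : ℝ) / x ^ (ε / 32)) atTop (nhds 0) := by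
      have := isLittleO_log_rpow_rpow_atTop (3 : ℝ) (show 0 < ε / 32 by linarith)
      exact this.tendsto_div_nhds_zero
    have h2 := h1.eventually_le_const (show (0 : ℝ) < 1 / (6 * C ^ 2 * 2 ^ 3) by
      positivity)
    have h3 := tendsto_natCast_atTop_atTop.eventually (h2.and (eventually_gt_atTop (0 : ℝ)))
    filter_upwards [h3] with X hX
    obtain ⟨h4, h5⟩ := hX
    have h6 : (0 : ℝ) < (X : ℝ) ^ (ε / 32) := by positivity
    rw [div_le_div_iff₀ h6 (by positivity), one_mul] at h4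
    have h7 : Real.log (X : ℝ) ^ (3 : ℝ) = Real.log (X : ℝ) ^ (3 : ℕ) := by
      rw [← Real.rpow_natCast]
      norm_num
    rw [h7] at h4
    rw [mul_pow]
    linarith
  obtain ⟨Y1, hY1⟩ := eventually_atTop.1 (ev1.and (eventually_ge_atTop 3))
  refine ⟨Y1, fun Y hY F P c U H Q hP hPQ hK hc1 hc2 hH hQ => ?_⟩
  obtain ⟨e1, e3⟩ := hY1 Y hY
  have hY3 : (3 : ℝ) ≤ Y := by exact_mod_cast e3
  have hY0 : (0 : ℝ) < Y := by linarith
  have hY1r : (1 : ℝ) ≤ Y := by linarith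
  have hH0 : (0 : ℝ) < H := by exact_mod_cast hH
  have hlY1 : 1 ≤ Real.log Y := by
    rw [Real.le_log_iff_exp_le (by linarith)]
    linarith [Real.exp_one_lt_d9]
  set D : ℕ := ⌊(Y : ℝ) ^ τ'⌋₊ with hD
  have hYτ1 : (1 : ℝ) ≤ (Y : ℝ) ^ τ' := Real.one_le_rpow (by linarith) hτ0.le
  have hD1 : 1 ≤ D := by
    rw [hD]
    exact Nat.le_floor (by exact_mod_cast hYτ1)
  have hD0 : (0 : ℝ) < D := by exact_mod_cast hD1
  have hDle : (D : ℝ) ≤ (Y : ℝ) ^ τ' := Nat.floor_le (by positivity)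
  have hDY : (D : ℝ) ≤ Y := by
    refine hDle.trans ?_
    calc (Y : ℝ) ^ τ' ≤ (Y : ℝ) ^ (1 : ℝ) := Real.rpow_le_rpow_of_exponent_le (by linarith) hτ1
      _ = Y := Real.rpow_one _
  have hB : ∀ T ⊆ P, ∏ p ∈ T, p ≤ D →
      (ro F 0 (∏ p ∈ T, p) : ℝ) ≤ C * (Y : ℝ) ^ (ε / 32) := by
    intro T hT hTD
    have hTp : ∀ p ∈ T, p.Prime := fun p hp => hP p (hT hp)
    refine (Pool.Agent.Y882.PY.ro_le_pow2 F K 0 T hTp (fun p hp => hK p (hT hp))).trans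
      ((HC T hTp).trans ?_)
    apply mul_le_mul_of_nonneg_left _ (by linarith)
    have h1 : ((∏ p ∈ T, p : ℕ) : ℝ) ≤ (Y : ℝ) ^ τ' := le_trans (by exact_mod_cast hTD) hDle
    calc ((∏ p ∈ T, p : ℕ) : ℝ) ^ (ε / (32 * τ')) ≤
        ((Y : ℝ) ^ τ') ^ (ε / (32 * τ')) :=
          Real.rpow_le_rpow (Nat.cast_nonneg _) h1 (by positivity)
      _ = (Y : ℝ) ^ (ε / 32) := by
          rw [← Real.rpow_mul hY0.le]
          congr 1
          field_simp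
  have herr := var_prog F P hP c ((Y : ℝ) ^ (ε / 64)) hc1 D (C * (Y : ℝ) ^ (ε / 32))
    (by positivity) hB (by
    intro T hT hcT
    exact Nat.le_floor (hc2 T hT hcT)) U H Q hQ hPQ
  set A := (Icc 1 U).filter (fun u => (H : ℝ) * (Y : ℝ) ^ (-(ε / 16)) <
        |∑ n ∈ SC u (Q * H) Q (u % Q), EW F P c n|) with hA
  have hYe : (0 : ℝ) < (Y : ℝ) ^ (-(ε / 16)) := by positivity
  set Λ : ℝ := 1 + Real.log D with hΛ
  have h1 : (A.card : ℝ) * ((H : ℝ) * (Y : ℝ) ^ (-(ε / 16))) ^ 2 ≤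
      6 * (U + (D : ℝ) ^ 2) * (((Y : ℝ) ^ (ε / 64) * (C * (Y : ℝ) ^ (ε / 32))) ^ 2 * Λ ^ 3 * H) := by
    refine le_trans ?_ herr
    calc (A.card : ℝ) * ((H : ℝ) * (Y : ℝ) ^ (-(ε / 16))) ^ 2 =
        ∑ k ∈ A, ((H : ℝ) * (Y : ℝ) ^ (-(ε / 16))) ^ 2 := by rw [sum_const, nsmul_eq_mul]
      _ ≤ ∑ u ∈ A, (∑ n ∈ SC u (Q * H) Q (u % Q), EW F P c n) ^ 2 := by
          apply sum_le_sum
          intro a ha
          rw [hA, mem_filter] at ha
          rw [← sq_abs (∑ n ∈ SC a (Q * H) Q (a % Q), EW F P c n)]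
          exact pow_le_pow_left₀ (by positivity) ha.2.le 2
      _ ≤ _ := sum_le_sum_of_subset_of_nonneg (filter_subset _ _) (fun _ _ _ => by positivity)
  have hΛle : Λ ≤ 2 * Real.log Y := by
    have g1 : Real.log D ≤ Real.log Y := Real.log_le_log hD0 hDY
    rw [hΛ]
    linarith
  have hΛ0 : 0 ≤ Λ := by
    have := Real.log_natCast_nonneg D
    rw [hΛ]
    linarith
  set E : ℝ := (U : ℝ) + (Y : ℝ) ^ (2 * τ') with hE
  have hE0 : 0 ≤ E := by positivity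
  have hsum : (U : ℝ) + (D : ℝ) ^ 2 ≤ E := by
    have h3 : (D : ℝ) ^ 2 ≤ (Y : ℝ) ^ (2 * τ') := by
      calc (D : ℝ) ^ 2 ≤ ((Y : ℝ) ^ τ') ^ 2 := pow_le_pow_left₀ (Nat.cast_nonneg _) hDle 2
        _ = (Y : ℝ) ^ (2 * τ') := by
            rw [← Real.rpow_natCast, ← Real.rpow_mul hY0.le]
            congr 1
            push_cast
            ring
    linarith
  have p1 : ((Y : ℝ) ^ (ε / 64) * (C * (Y : ℝ) ^ (ε / 32))) ^ 2 = C ^ 2 * (Y : ℝ) ^ (3 * ε / 32) := by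
    rw [show (Y : ℝ) ^ (ε / 64) * (C * (Y : ℝ) ^ (ε / 32)) =
      C * ((Y : ℝ) ^ (ε / 64) * (Y : ℝ) ^ (ε / 32)) by ring, ← Real.rpow_add hY0, mul_pow,
      ← Real.rpow_natCast ((Y : ℝ) ^ (ε / 64 + ε / 32)), ← Real.rpow_mul hY0.le]
    congr 2
    push_cast
    ring
  have h2 : 6 * (U + (D : ℝ) ^ 2) * (((Y : ℝ) ^ (ε / 64) * (C * (Y : ℝ) ^ (ε / 32))) ^ 2 * Λ ^ 3 * H) ≤
      (6 * C ^ 2 * (2 * Real.log Y) ^ 3) * ((Y : ℝ) ^ (3 * ε / 32) * E * H) := by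
    rw [p1]
    have h3 : Λ ^ 3 ≤ (2 * Real.log Y) ^ 3 := pow_le_pow_left₀ hΛ0 hΛle 3
    calc 6 * (U + (D : ℝ) ^ 2) * (C ^ 2 * (Y : ℝ) ^ (3 * ε / 32) * Λ ^ 3 * H) ≤
        6 * E * (C ^ 2 * (Y : ℝ) ^ (3 * ε / 32) * (2 * Real.log Y) ^ 3 * H) := by
          gcongr
      _ = _ := by ring
  have h3 : (6 * C ^ 2 * (2 * Real.log Y) ^ 3) * ((Y : ℝ) ^ (3 * ε / 32) * E * H) ≤
      (E / H * (Y : ℝ) ^ (ε / 2)) * ((H : ℝ) * (Y : ℝ) ^ (-(ε / 16))) ^ 2 := by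
    calc (6 * C ^ 2 * (2 * Real.log Y) ^ 3) * ((Y : ℝ) ^ (3 * ε / 32) * E * H) ≤
        (Y : ℝ) ^ (ε / 32) * ((Y : ℝ) ^ (3 * ε / 32) * E * H) :=
          mul_le_mul_of_nonneg_right e1 (by positivity)
      _ = (Y : ℝ) ^ (ε / 8) * (E * H) := by
          rw [mul_assoc ((Y : ℝ) ^ (3 * ε / 32)), ← mul_assoc, ← Real.rpow_add hY0]
          congr 2
          ring
      _ ≤ (Y : ℝ) ^ (ε / 2 + -(ε / 16) * 2) * (E * H) := by
          apply mul_le_mul_of_nonneg_right _ (by positivity)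
          exact Real.rpow_le_rpow_of_exponent_le hY1r (by linarith)
      _ = _ := by
          rw [Real.rpow_add hY0, Real.rpow_mul hY0.le (-(ε / 16)) 2]
          rw [show ((Y : ℝ) ^ (-(ε / 16))) ^ (2 : ℝ) = ((Y : ℝ) ^ (-(ε / 16))) ^ 2 by norm_num]
          field_simp
  exact le_of_mul_le_mul_right ((h1.trans h2).trans h3) (by positivity)

end Pool.Agent.L7h27.PR
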